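import Pool.Agent.Helper87.NM.Bd

/-!
# MP_d775c4_co: the exact least order `N(m)` realizing all weak orders by independent set counts

`N(1) = 1`, `N(2) = 5` and, for every `m ≥ 3`, `N(m) = m^m + P(m) + m - 2`, where `P(m)` is the least
product `t_1 ⋯ t_(m-1)` of integers `1 ≤ t_i ≤ m` with `1/t_1 + ⋯ + 1/t_(m-1) < 1`; moreover
`P(m) = (m-1)^(m-1) (1 + 1/(2m) + O(1/m^2))` with explicit bounds.
(The definitions of `indCount`, `WeakOrder`, `Realizes` and `orders` are those of helper78.)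
-/

open Finset Polynomial

namespace Pool.Agent.Results.MP_d775c4_co.ExactValue

open Pool.H78.ND Pool.H87.NM

/-- `i_k(G)`: the number of independent sets of `G` with exactly `k` vertices. -/
noncomputable def indCount {n : ℕ} (G : SimpleGraph (Fin n)) (k : ℕ) : ℕ :=
  Nat.card {s : Finset (Fin n) // G.IsIndepSet (s : Set (Fin n)) ∧ s.card = k}

/-- A weak order (ordered partition into blocks) on `[m]`. The element `j : Fin m` stands for
`j + 1 ∈ [m]`, and `le j k` says that the block of `j + 1` equals or precedes that of `k + 1`. -/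
structure WeakOrder (m : ℕ) where
  le : Fin m → Fin m → Prop
  total : ∀ j k, le j k ∨ le k j
  trans : ∀ i j k, le i j → le j k → le i k

/-- `G` realizes the weak order `W` on `[m]`: `α(G) = m` and `W` is the weak order induced by
the numbers `i_1(G), …, i_m(G)`. -/
def Realizes {n m : ℕ} (G : SimpleGraph (Fin n)) (W : WeakOrder m) : Prop :=
  G.indepNum = m ∧
    ∀ j k : Fin m, W.le j k ↔ indCount G ((j : ℕ) + 1) ≤ indCount G ((k : ℕ) + 1)

/-- The set of all `n` such that every weak order on `[m]` is realized by some graph of order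
at most `n`. The number `N(m)` is its least element. -/
def orders (m : ℕ) : Set ℕ :=
  {n | ∀ W : WeakOrder m, ∃ n' ≤ n, ∃ G : SimpleGraph (Fin n'), Realizes G W}

theorem indCount_eq {n : ℕ} (G : SimpleGraph (Fin n)) (k : ℕ) :
    indCount G k = (P G Finset.univ).coeff k := by
  classical
  rw [coeff_P, indCount]
  apply Nat.subtype_card
  intro s
  rw [mem_filter, mem_powersetCard]
  constructor
  · rintro ⟨⟨_, h1⟩, h2⟩
    exact ⟨h2, h1⟩
  · rintro ⟨h1, h2⟩
    exact ⟨⟨subset_univ _, h2⟩, h1⟩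

theorem indCount_one {n : ℕ} (G : SimpleGraph (Fin n)) : indCount G 1 = n := by
  classical
  rw [indCount_eq, coeff_P, filter_true_of_mem, card_powersetCard, card_univ, Fintype.card_fin,
    Nat.choose_one_right]
  intro s hs
  rw [mem_powersetCard, card_eq_one] at hs
  obtain ⟨_, a, rfl⟩ := hs
  simp

theorem indCount_pos {n : ℕ} (G : SimpleGraph (Fin n)) (k : ℕ) :
    0 < indCount G k ↔ ∃ s : Finset (Fin n), G.IsIndepSet (s : Set (Fin n)) ∧ s.card = k := by
  rw [indCount, Nat.card_pos_iff]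
  constructor
  · rintro ⟨⟨s, hs⟩, _⟩
    exact ⟨s, hs⟩
  · rintro ⟨s, hs⟩
    exact ⟨⟨s, hs⟩, inferInstance⟩

/-- `α(G) = m` when `i_m(G) > 0` and `i_j(G) = 0` for `j > m`. -/
theorem indepNum_eq {n m : ℕ} (G : SimpleGraph (Fin n)) (h1 : 0 < indCount G m)
    (h2 : ∀ j, m < j → indCount G j = 0) : G.indepNum = m := by
  apply le_antisymm
  · obtain ⟨s, hs⟩ := G.exists_isNIndepSet_indepNum
    by_contra hcon
    have h3 := h2 _ (by omega : m < G.indepNum)
    have h4 : 0 < indCount G G.indepNum := (indCount_pos G _).2 ⟨s, hs.isIndepSet, hs.card_eq⟩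
    omega
  · obtain ⟨s, hs1, hs2⟩ := (indCount_pos G m).1 h1
    rw [← hs2]
    exact hs1.card_le_indepNum

theorem indCount_zero_of {n m : ℕ} (G : SimpleGraph (Fin n)) (h : G.indepNum = m) (j : ℕ)
    (hj : m < j) : indCount G j = 0 := by
  by_contra hcon
  obtain ⟨s, hs1, hs2⟩ := (indCount_pos G j).1 (by omega)
  have := hs1.card_le_indepNum
  omega

open Classical in
/-- the rank function of a weak order: the number of elements in strictly smaller blocks -/
noncomputable def rk {m : ℕ} (W : WeakOrder m) (i : ℕ) : ℕ :=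
  if h : i - 1 < m then (univ.filter (fun x : Fin m => ¬ W.le ⟨i - 1, h⟩ x)).card else 0

theorem rk_le {m : ℕ} (W : WeakOrder m) (i : ℕ) : rk W i ≤ m - 1 := by
  classical
  unfold rk
  split_ifs with h
  · have h1 : univ.filter (fun x : Fin m => ¬ W.le ⟨i - 1, h⟩ x) ⊆ univ.erase ⟨i - 1, h⟩ := by
      intro x hx
      rw [mem_filter] at hx
      rw [mem_erase]
      refine ⟨?_, mem_univ _⟩
      rintro rfl
      exact hx.2 ((W.total _ _).elim id id)
    have h2 := card_le_card h1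
    rw [card_erase_of_mem (mem_univ _), card_univ, Fintype.card_fin] at h2
    exact h2
  · exact Nat.zero_le _

theorem rk_iff {m : ℕ} (W : WeakOrder m) (j k : Fin m) :
    W.le j k ↔ rk W ((j : ℕ) + 1) ≤ rk W ((k : ℕ) + 1) := by
  classical
  have hj : (j : ℕ) + 1 - 1 < m := by have := j.2; omega
  have hk : (k : ℕ) + 1 - 1 < m := by have := k.2; omega
  rw [rk, rk, dif_pos hj, dif_pos hk]
  have ej : (⟨(j : ℕ) + 1 - 1, hj⟩ : Fin m) = j := by ext; simp
  have ek : (⟨(k : ℕ) + 1 - 1, hk⟩ : Fin m) = k := by ext; simp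
  rw [ej, ek]
  constructor
  · intro h
    apply card_le_card
    intro x hx
    rw [mem_filter] at hx ⊢
    exact ⟨mem_univ _, fun h' => hx.2 (W.trans _ _ _ h h')⟩
  · intro h
    by_contra hcon
    have h1 : W.le k j := (W.total j k).resolve_left hcon
    apply absurd h
    rw [not_le]
    apply card_lt_card
    rw [ssubset_iff_of_subset]
    · refine ⟨k, ?_, ?_⟩
      · rw [mem_filter]; exact ⟨mem_univ _, hcon⟩
      · rw [mem_filter]
        intro h2
        exact h2.2 ((W.total k k).elim id id)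
    · intro x hx
      rw [mem_filter] at hx ⊢
      exact ⟨mem_univ _, fun h' => hx.2 (W.trans _ _ _ h1 h')⟩

/-- The set of all products `t_1 ⋯ t_(m-1)` of integers `1 ≤ t_i ≤ m` with
`1/t_1 + ⋯ + 1/t_(m-1) < 1`. -/
def boxProducts (m : ℕ) : Set ℕ :=
  {x | ∃ t : Fin (m - 1) → ℕ, (∀ i, 1 ≤ t i ∧ t i ≤ m) ∧ ∑ i, (1 : ℚ) / t i < 1 ∧ x = ∏ i, t i}

/-- from a realized polynomial to `orders` -/
theorem realizes_of {m : ℕ} (W : WeakOrder m) (f : ℕ[X]) (hf : Rz f)
    (hpos : 0 < f.coeff m) (hzero : ∀ j, m < j → f.coeff j = 0)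
    (hord : ∀ j k : ℕ, 1 ≤ j → j ≤ m → 1 ≤ k → k ≤ m →
      (rk W j ≤ rk W k ↔ f.coeff j ≤ f.coeff k)) :
    ∃ (n : ℕ) (G : SimpleGraph (Fin n)), n = f.coeff 1 ∧ Realizes G W := by
  obtain ⟨n, G, hG⟩ := hf.fin
  have hc : ∀ j, indCount G j = f.coeff j := fun j => by rw [indCount_eq, hG]
  refine ⟨n, G, ?_, ?_, ?_⟩
  · rw [← hc, indCount_one]
  · apply indepNum_eq
    · rw [hc]; exact hpos
    · intro j hj
      rw [hc]; exact hzero j hj
  · intro j k
    rw [rk_iff, hc, hc]
    exact hord _ _ (by omega) (by have := j.2; omega) (by omega) (by have := k.2; omega)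

theorem upper_four (m : ℕ) (hm : 4 ≤ m) : m ^ m + minProd m + m - 2 ∈ orders m := by
  intro W
  obtain ⟨K, f, hf, hK, h1, h2, h3⟩ := realize_opt m hm (rk W) (rk_le W)
  obtain ⟨n, G, hn, hG⟩ := realizes_of W f hf (by
    have := h2 m (by omega) le_rfl
    omega) h3 (by
    intro j k hj1 hj hk1 hk
    have := h2 j hj1 hj
    have := h2 k hk1 hk
    omega)
  exact ⟨n, by omega, G, hG⟩

theorem upper_three : 34 ∈ orders 3 := by
  intro W
  obtain ⟨f, hf, h1, h2, h3, h4⟩ := small_three (rk W)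
  obtain ⟨n, G, hn, hG⟩ := realizes_of W f hf h2 h3 h4
  exact ⟨n, by omega, G, hG⟩

theorem upper_two : 5 ∈ orders 2 := by
  intro W
  obtain ⟨f, hf, h1, h2, h3, h4⟩ := small_two (rk W)
  obtain ⟨n, G, hn, hG⟩ := realizes_of W f hf h2 h3 h4
  exact ⟨n, by omega, G, hG⟩

theorem upper_one : 1 ∈ orders 1 := by
  intro W
  obtain ⟨n, G, hn, hG⟩ := realizes_of W ((1 + C 1 * X) ^ 1) (Rz.lin 1 1) (by
    rw [coeff_lin_pow]; norm_num) (by
    intro j hj
    rw [coeff_lin_pow, Nat.choose_eq_zero_of_lt hj, zero_mul]) (by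
    intro j k hj1 hj hk1 hk
    obtain rfl : j = 1 := by omega
    obtain rfl : k = 1 := by omega
    simp)
  rw [coeff_lin_pow] at hn
  exact ⟨n, by rw [hn]; norm_num, G, hG⟩

/-- the rank function of the weak order `m-1 < m < m-2 < ⋯ < 2 < 1` (shifted by one) -/
def hardRank (m : ℕ) (j : ℕ) : ℕ :=
  if j = m - 1 then 1 else if j = m - 2 then 0 else m - 1 - j

/-- the weak order `m-1 < m < m-2 < ⋯ < 2 < 1` -/
def hard (m : ℕ) : WeakOrder m where
  le j k := hardRank m j ≤ hardRank m k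
  total _ _ := le_total _ _
  trans _ _ _ h1 h2 := le_trans h1 h2

/-- the lower bound -/
theorem lower (m : ℕ) (hm : 3 ≤ m) (n : ℕ) (hn : n ∈ orders m) : m ^ m + minProd m + m - 2 ≤ n := by
  obtain ⟨n', hn', G, hα, hG⟩ := hn (hard m)
  have hlt : ∀ j k : ℕ, j < m → k < m → hardRank m j < hardRank m k →
      indCount G (j + 1) < indCount G (k + 1) := by
    intro j k hj hk h
    have := hG ⟨k, hk⟩ ⟨j, hj⟩
    by_contra hcon
    have h2 := this.2 (by simpa using hcon)
    exact absurd h2 (by simpa [hard] using h)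
  have htop : m ^ m + minProd m ≤ indCount G m := by
    rw [indCount_eq]
    apply low m hm G univ
    · change (P G univ).coeff (m + 1) = 0
      rw [← indCount_eq]
      exact indCount_zero_of G hα _ (by omega)
    · change (P G univ).coeff (m - 1) < (P G univ).coeff m
      rw [← indCount_eq, ← indCount_eq]
      have := hlt (m - 2) (m - 1) (by omega) (by omega) (by
        unfold hardRank
        rw [if_neg (by omega), if_pos rfl, if_pos rfl]
        exact Nat.one_pos)
      rw [show m - 2 + 1 = m - 1 by omega, show m - 1 + 1 = m by omega] at this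
      exact this
  have hchain : ∀ d, d ≤ m - 3 → m ^ m + minProd m + 1 + d ≤ indCount G (m - 3 - d + 1) := by
    intro d
    induction d with
    | zero =>
      intro _
      have := hlt (m - 1) (m - 3 - 0) (by omega) (by omega) (by
        unfold hardRank
        rw [if_pos rfl, if_neg (by omega), if_neg (by omega)]
        omega)
      rw [show m - 1 + 1 = m by omega] at this
      omega
    | succ d ih =>
      intro hd
      have h1 := ih (by omega)
      have := hlt (m - 3 - d) (m - 3 - (d + 1)) (by omega) (by omega) (by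
        unfold hardRank
        rw [if_neg (by omega), if_neg (by omega), if_neg (by omega), if_neg (by omega)]
        omega)
      omega
  have h1 := hchain (m - 3) le_rfl
  rw [show m - 3 - (m - 3) + 1 = 1 by omega, indCount_one] at h1
  omega

/-- the weak order `1 < 2` on `[2]` -/
def hardTwo : WeakOrder 2 where
  le j k := j ≤ k
  total _ _ := le_total _ _
  trans _ _ _ h1 h2 := le_trans h1 h2

theorem lower_two (n : ℕ) (hn : n ∈ orders 2) : 5 ≤ n := by
  obtain ⟨n', hn', G, hα, hG⟩ := hn hardTwo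
  have h1 := hG 1 0
  have h2 : ¬ hardTwo.le 1 0 := by
    unfold hardTwo
    decide
  have h3 : indCount G 1 < indCount G 2 := by
    by_contra hcon
    apply h2
    apply h1.2
    change indCount G 2 ≤ indCount G 1
    omega
  have h4 := low_two G univ (by
    change (P G univ).coeff 3 = 0
    rw [← indCount_eq]
    exact indCount_zero_of G hα _ (by norm_num)) (by
    change (P G univ).coeff 1 < (P G univ).coeff 2
    rw [← indCount_eq, ← indCount_eq]
    exact h3)
  have h5 : ic G 1 univ = n' := by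
    change (P G univ).coeff 1 = n'
    rw [← indCount_eq, indCount_one]
  omega

theorem lower_one (n : ℕ) (hn : n ∈ orders 1) : 1 ≤ n := by
  obtain ⟨n', hn', G, hα, hG⟩ := hn ⟨fun _ _ => True, fun _ _ => Or.inl trivial, fun _ _ _ _ _ => trivial⟩
  by_contra hcon
  obtain rfl : n' = 0 := by omega
  obtain ⟨s, hs⟩ := G.exists_isNIndepSet_indepNum
  have h1 := hs.card_eq
  rw [hα] at h1
  have h2 : s = ∅ := by
    ext x
    exact x.elim0
  rw [h2] at h1
  simp at h1

theorem minProd_three : minProd 3 = 6 := by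
  apply le_antisymm (minProd_le 1)
  obtain ⟨t, ht, hs, hT⟩ := minProd_mem 1
  change minProd 3 = _ at hT
  rw [hT]
  rw [Fin.sum_univ_two] at hs
  rw [Fin.prod_univ_two]
  obtain ⟨a1, a2⟩ := ht 0
  obtain ⟨b1, b2⟩ := ht 1
  generalize t 0 = a at *
  generalize t 1 = b at *
  interval_cases a <;> interval_cases b <;> first | (norm_num at hs; done) | norm_num

/-- the bounds for `P(m)` -/
theorem bounds (m : ℕ) (hm : 3 ≤ m) :
    (1 + 1 / (2 * (m : ℝ))) * ((m : ℝ) - 1) ^ (m - 1) < minProd m ∧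
    (minProd m : ℝ) ≤ (1 + 1 / (2 * (m : ℝ)) + 4 / (m : ℝ) ^ 2) * ((m : ℝ) - 1) ^ (m - 1) := by
  obtain ⟨k, rfl⟩ : ∃ k, m = k + 2 := ⟨m - 2, by omega⟩
  have e1 : (((k + 2 : ℕ) : ℝ)) - 1 = ((k + 1 : ℕ) : ℝ) := by push_cast; ring
  have e2 : (((k + 2 : ℕ) : ℝ)) = ((k + 1 : ℕ) : ℝ) + 1 := by push_cast; ring
  have e3 : k + 2 - 1 = k + 1 := rfl
  rw [e1, e3, e2]
  constructor
  · obtain ⟨t, ht, hs, hT⟩ := minProd_mem k
    rw [hT]
    exact box_gt (k + 1) (by omega) t ht hs
  · obtain ⟨q, c, hq, hc1, hc2⟩ : ∃ q c, k + 1 = q + 1 + q + c ∧ 1 ≤ c ∧ c ≤ 2 := by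
      rcases Nat.even_or_odd k with ⟨r, hr⟩ | ⟨r, hr⟩
      · exact ⟨r - 1, 2, by omega, by omega, by omega⟩
      · exact ⟨r, 1, by omega, by omega, by omega⟩
    have h1 : minProd (k + 2) ≤ (k + 1 + 1) ^ (q + 1) * (k + 1 - 1) ^ q * (k + 1) ^ c :=
      Nat.sInf_le (pat_mem (k + 1) q c hq hc1)
    have h2 : (minProd (k + 2) : ℝ) ≤
        (((k + 1 + 1) ^ (q + 1) * (k + 1 - 1) ^ q * (k + 1) ^ c : ℕ) : ℝ) := by exact_mod_cast h1
    exact le_trans h2 (pat_le (k + 1) q c hq hc1 hc2)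

/-- **Main theorem.** `N(1) = 1`, `N(2) = 5`, and `N(m) = m^m + P(m) + m - 2` for all `m ≥ 3`, where
`P(m)` is the least product `t_1 ⋯ t_(m-1)` of integers `1 ≤ t_i ≤ m` with
`1/t_1 + ⋯ + 1/t_(m-1) < 1`; moreover
`(1 + 1/(2m)) (m-1)^(m-1) < P(m) ≤ (1 + 1/(2m) + 4/m^2) (m-1)^(m-1)`. -/
theorem result : IsLeast (orders 1) 1 ∧ IsLeast (orders 2) 5 ∧
    ∀ m : ℕ, 3 ≤ m → ∃ P : ℕ, IsLeast (boxProducts m) P ∧
      (1 + 1 / (2 * (m : ℝ))) * ((m : ℝ) - 1) ^ (m - 1) < P ∧
      (P : ℝ) ≤ (1 + 1 / (2 * (m : ℝ)) + 4 / (m : ℝ) ^ 2) * ((m : ℝ) - 1) ^ (m - 1) ∧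
      IsLeast (orders m) (m ^ m + P + m - 2) := by
  refine ⟨⟨upper_one, lower_one⟩, ⟨upper_two, lower_two⟩, ?_⟩
  intro m hm
  have hb := bounds m hm
  obtain ⟨k, rfl⟩ : ∃ k, m = k + 2 := ⟨m - 2, by omega⟩
  refine ⟨minProd (k + 2), ⟨minProd_mem k, fun x hx => Nat.sInf_le hx⟩, hb.1, hb.2, ?_,
    fun n hn => lower (k + 2) hm n hn⟩
  rcases Nat.lt_or_ge k 2 with h | h
  · obtain rfl : k = 1 := by omega
    change 3 ^ 3 + minProd 3 + 3 - 2 ∈ orders 3
    rw [minProd_three]
    exact upper_three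
  · exact upper_four (k + 2) (by omega)

end Pool.Agent.Results.MP_d775c4_co.ExactValue
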